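import Pool.Agent.Lib.MP_dd244f_an.Rq.All

set_option autoImplicit false

namespace Pool.Agent.Results.MP_dd244f_an.FullOperatorAsymptotic

/-- The full operator `T ^ n` on all Schwartz functions: for every `ε > 0` there is `n₀` such that
for all `n ≥ n₀` and ALL real `p ≥ 2` the inequality of the problem holds with the additional
factor `1 + ε`. -/
theorem result : ∀ ε : ℝ, 0 < ε →
    ∃ n₀ : ℕ, ∀ p : ℝ, 2 ≤ p → ∀ n : ℕ, n₀ ≤ n → ∀ f : SchwartzMap ℂ ℂ,
      MeasureTheory.eLpNorm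
        (fun z : ℂ => ∫ ξ : ℂ,
          Complex.exp (2 * (Real.pi : ℂ) * Complex.I * (((z.re * ξ.re + z.im * ξ.im : ℝ)) : ℂ)) *
            ((starRingEnd ℂ ξ / ξ) ^ n *
              ∫ x : ℂ, Complex.exp (-(2 * (Real.pi : ℂ) * Complex.I *
                (((x.re * ξ.re + x.im * ξ.im : ℝ)) : ℂ))) * f x))
        (ENNReal.ofReal p) MeasureTheory.volume
      ≤ ENNReal.ofReal ((1 + ε) *
          ((ascPochhammer ℝ n).eval (1 - 1 / p) / (ascPochhammer ℝ n).eval (1 / p)))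
        * MeasureTheory.eLpNorm (⇑f) (ENNReal.ofReal p) MeasureTheory.volume := by
  intro ε hε
  obtain ⟨n₀, h⟩ := Pool.Agent.Lib.MP_dd244f_an.Rq.all_unifA2 ε hε
  exact ⟨n₀, fun p hp n hn f => h n hn p hp f⟩

end Pool.Agent.Results.MP_dd244f_an.FullOperatorAsymptotic
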