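import Pool.Agent.Lib.QNL.Full31
import Pool.Agent.Lib.QNL.Fin95
import Pool.Agent.Lib.QNL.RegD43
import Pool.Agent.Lib.QNL.End14

set_option autoImplicit false

namespace Pool.Agent.Results.MP_dd244f_an.FullPochhammerBound

open MeasureTheory
open Pool.Agent.Lib.QNL

/-- All powers, all exponents, on the whole of `L^p(ℂ)`: for `1 < p < ∞` there is exactly one bounded
operator `T` on `L^p(ℂ)` which is the Fourier multiplier `conj ξ / ξ` on Schwartz functions (the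
Beurling–Ahlfors operator); its power `T ^ n` is the multiplier `(conj ξ / ξ) ^ n` on Schwartz
functions, and `‖T ^ n‖ ≤ (1 - 1/p)_n / (1/p)_n` if `p ≥ 2`, `‖T ^ n‖ ≤ (1/p)_n / (1 - 1/p)_n` if
`p ≤ 2`, for every `n`. -/
theorem result : ∀ p : ℝ, 1 < p → ∀ [Fact (1 ≤ ENNReal.ofReal p)],
    (∃! T : Lp ℂ (ENNReal.ofReal p) (volume : Measure ℂ) →L[ℂ]
        Lp ℂ (ENNReal.ofReal p) (volume : Measure ℂ), ∀ f : SchwartzMap ℂ ℂ,
      (T (f.toLp (ENNReal.ofReal p) volume) : ℂ → ℂ) =ᵐ[volume]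
        fun z : ℂ => ∫ ξ : ℂ,
          Complex.exp (2 * (Real.pi : ℂ) * Complex.I * (((z.re * ξ.re + z.im * ξ.im : ℝ)) : ℂ)) *
            (starRingEnd ℂ ξ / ξ *
              ∫ x : ℂ, Complex.exp (-(2 * (Real.pi : ℂ) * Complex.I *
                (((x.re * ξ.re + x.im * ξ.im : ℝ)) : ℂ))) * f x)) ∧
    ∀ T : Lp ℂ (ENNReal.ofReal p) (volume : Measure ℂ) →L[ℂ]
        Lp ℂ (ENNReal.ofReal p) (volume : Measure ℂ), (∀ f : SchwartzMap ℂ ℂ,
      (T (f.toLp (ENNReal.ofReal p) volume) : ℂ → ℂ) =ᵐ[volume]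
        fun z : ℂ => ∫ ξ : ℂ,
          Complex.exp (2 * (Real.pi : ℂ) * Complex.I * (((z.re * ξ.re + z.im * ξ.im : ℝ)) : ℂ)) *
            (starRingEnd ℂ ξ / ξ *
              ∫ x : ℂ, Complex.exp (-(2 * (Real.pi : ℂ) * Complex.I *
                (((x.re * ξ.re + x.im * ξ.im : ℝ)) : ℂ))) * f x)) →
    ∀ n : ℕ, (∀ f : SchwartzMap ℂ ℂ,
      ((T ^ n) (f.toLp (ENNReal.ofReal p) volume) : ℂ → ℂ) =ᵐ[volume]
        fun z : ℂ => ∫ ξ : ℂ,
          Complex.exp (2 * (Real.pi : ℂ) * Complex.I * (((z.re * ξ.re + z.im * ξ.im : ℝ)) : ℂ)) *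
            ((starRingEnd ℂ ξ / ξ) ^ n *
              ∫ x : ℂ, Complex.exp (-(2 * (Real.pi : ℂ) * Complex.I *
                (((x.re * ξ.re + x.im * ξ.im : ℝ)) : ℂ))) * f x)) ∧
      (2 ≤ p → ‖T ^ n‖ ≤
        (ascPochhammer ℝ n).eval (1 - 1 / p) / (ascPochhammer ℝ n).eval (1 / p)) ∧
      (p ≤ 2 → ‖T ^ n‖ ≤
        (ascPochhammer ℝ n).eval (1 / p) / (ascPochhammer ℝ n).eval (1 - 1 / p)) := by
  intro p hp _
  obtain ⟨h1, h2⟩ := Full31.full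
    (CG.certAll3_of (CG.okIII.mono (by norm_num) le_rfl le_rfl)
      (CG.okIV.mono (by norm_num) le_rfl le_rfl)
      (End14.regVI.mono (by norm_num) le_rfl le_rfl)) p hp
  refine ⟨h1, fun T hT n => ?_⟩
  obtain ⟨h3, h4⟩ := h2 T hT n
  exact ⟨h3, Full31.norm_two hp n h4⟩

end Pool.Agent.Results.MP_dd244f_an.FullPochhammerBound
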