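import Pool.Agent.Lib.IWC.Iwa58

set_option autoImplicit false

namespace Pool.Agent.Results.MP_dd244f_an.IwaniecConjecture

/-- The Iwaniec conjecture (the case `n = 1` of the problem): the Beurling–Ahlfors transform has
norm at most `p* - 1 = max (p - 1) (1 / (p - 1))` on `L^p`, for every `p > 1`. -/
theorem result : ∀ p : ℝ, 1 < p → ∀ f : SchwartzMap ℂ ℂ,
      MeasureTheory.eLpNorm
        (fun z : ℂ => ∫ ξ : ℂ,
          Complex.exp (2 * (Real.pi : ℂ) * Complex.I * (((z.re * ξ.re + z.im * ξ.im : ℝ)) : ℂ)) *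
            (starRingEnd ℂ ξ / ξ *
              ∫ x : ℂ, Complex.exp (-(2 * (Real.pi : ℂ) * Complex.I *
                (((x.re * ξ.re + x.im * ξ.im : ℝ)) : ℂ))) * f x))
        (ENNReal.ofReal p) MeasureTheory.volume
      ≤ ENNReal.ofReal (max (p - 1) (1 / (p - 1)))
        * MeasureTheory.eLpNorm (⇑f) (ENNReal.ofReal p) MeasureTheory.volume :=
  Pool.Agent.Lib.IWC.iwaniec

end Pool.Agent.Results.MP_dd244f_an.IwaniecConjecture
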